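import Pool.Agent.Helper96.T2.Def
import Pool.Agent.Helper42.CKC.Tgt

set_option autoImplicit false

/-!
The values of the two expressions of the target agree.
-/

namespace Pool.Agent.Helper96.T2

open Complex
open Pool.Sos71 Pool.EK71 Pool.Agent.Helper52.EK Pool.Agent.Helper2.EK
open Pool.Agent.Helper69.EK3 (AP apE ader)
open Pool.Agent.Helper71.EKC
open Pool.Agent.Helper99.CKC Pool.Agent.Helper42.CKC
open Pool.Agent.Helper11.CKC (CL)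

section
variable (y : Pnt)

/-- the value of `D` -/
noncomputable def vD (d : DC) : ℝ := Dc d y.f y.g

theorem xD_re (d : DC) : (xD d).re y = vD y d := e_Dc _ _ _

theorem pD_re (d : DC) (n : ℕ) : (pD d n).re y = vD y d ^ n := by
  show (xD d).re y ^ n = _
  rw [xD_re]

theorem Dk_v (d : DC) (n : ℕ) : ev2 y.f y.g (Dk d n) = vD y d ^ n := by
  rw [Dk, e_pw, e_Dc]; rfl

theorem hm2_re (d : DC) (K : ℕ) (t : HmC) : (EHm d K t).re y = vD y d ^ K * (hm2 t).re y := by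
  show (apE (ader t.P)).re y * ((CX.mul (cZ t.cR t.cI) (CX.pw cx t.n)).r.re y *
    ev2 y.f y.g (Dk d K)) = _ * ((apE (ader t.P)).re y *
    (CX.mul (cZ t.cR t.cI) (CX.pw cx t.n)).r.re y)
  rw [Dk_v]; ring

theorem EM2_re (z0 z1 z2 : ℤ) (d : DC) (K h : ℕ) (t : ℕ × ℕ × ℤ × ℤ) :
    (EMc z0 z1 z2 d K h t).re y = vD y d ^ K * (EM2 z0 z1 z2 h t).re y := by
  have e1 : (EMc z0 z1 z2 d K h t).re y = (Ex.mul (Ex.pow (Ex.va 0) t.1)
    (CX.mul (CX.sc2 t.2.2.1 t.2.2.2 (cMw t.2.1))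
      (CX.mul cx (CX.add (cZ (Int.mul 2 z0) 0) (CX.sc2 z1 z2 cx)))).r).re y *
      ((Ex.pow xo (h - 2)).re y * ev2 y.f y.g (Dk d K)) := rfl
  have e2 : (EM2 z0 z1 z2 h t).re y = (Ex.mul (Ex.pow (Ex.va 0) t.1)
    (CX.mul (CX.sc2 t.2.2.1 t.2.2.2 (cMw t.2.1))
      (CX.mul cx (CX.add (cZ (Int.mul 2 z0) 0) (CX.sc2 z1 z2 cx)))).r).re y *
      (Ex.pow xo (h - 2)).re y := rfl
  rw [e1, e2, Dk_v]; ring

theorem eR2_re (d : DC) (m : ℕ) (t : Rm) : (eRm d m t).re y = vD y d ^ m * (eR2 t).re y := by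
  have e1 : (eRm d m t).re y = (Ex.mul (Ex.pow (Ex.va 0) t.e)
      (Ex.mul (Ex.pow (Ex.va 3) t.a) (Ex.pow (Ex.va 4) t.b))).re y *
      ((apE t.g).re y * ev2 y.f y.g (mu2 t.P (Dk d m))) := rfl
  have e2 : (eR2 t).re y = (Ex.mul (Ex.pow (Ex.va 0) t.e)
      (Ex.mul (Ex.pow (Ex.va 3) t.a) (Ex.pow (Ex.va 4) t.b))).re y *
      ((apE t.g).re y * ev2 y.f y.g t.P) := rfl
  rw [e1, e2, ev2_mu, Dk_v]; ring

theorem eL2_re (D : DatC) (v : Vx) : (D.eLin v).re y = vD y D.d ^ D.K * (eL2 D v).re y := by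
  have e1 : (D.eLin v).re y = (Ex.pow xo D.h).re y * ev2 y.f y.g
      (mu2 [[0, 0, Int.mul (Int.mul 2 v.td) v.lam],
        [Int.mul (Int.mul 2 v.td) (Int.add v.lam (Int.neg v.ka))],
        [Int.mul (Int.mul 2 v.td) v.lam]] (Dk D.d D.K)) := rfl
  have e2 : (eL2 D v).re y = (Ex.pow xo D.h).re y * ev2 y.f y.g
      [[0, 0, Int.mul (Int.mul 2 v.td) v.lam],
        [Int.mul (Int.mul 2 v.td) (Int.add v.lam (Int.neg v.ka))],
        [Int.mul (Int.mul 2 v.td) v.lam]] := rfl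
  rw [e1, e2, ev2_mu, Dk_v]; ring

theorem v_mD (d : DC) {K k : ℕ} (hk : k + 1 ≤ K) (t : AP × BP × BP) :
    CX.v y (hM d K k t) = ((vD y d ^ (K - k - 1) : ℝ) : ℂ) * CX.v y (mD d t) := by
  have e : K - k = K - k - 1 + 1 := by omega
  have e1 : CX.v y (hM d K k t) = ⟨ev2 y.f y.g (mu2 t.2.1 (Dk d (K - k))),
    ev2 y.f y.g (mu2 t.2.2 (Dk d (K - k)))⟩ := rfl
  have e2 : CX.v y (mD d t) = ⟨(xD d).re y * ev2 y.f y.g t.2.1, (xD d).re y * ev2 y.f y.g t.2.2⟩ :=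
    rfl
  rw [e1, e2, ev2_mu, ev2_mu, Dk_v, xD_re, e, pow_succ, Nat.add_sub_cancel]
  apply Complex.ext
  · rw [re_ofReal_mul]; ring
  · rw [im_ofReal_mul]; ring

theorem neg_cast' (j : ℕ) : ((Int.neg (Int.ofNat j) : ℤ) : ℝ) = -(j : ℝ) := by
  have : Int.neg (Int.ofNat j) = -(j : ℤ) := rfl
  rw [this]; push_cast; ring

theorem eX_re (d : DC) (j : ℕ) (P : BP) : (eX d j P).re y = ev2 y.f y.g (qcX d j P) := by
  have e1 : (eX d j P).re y = (xD d).re y * ev2 y.f y.g (dX P) +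
    ((Int.neg (Int.ofNat j) : ℤ) : ℝ) * (ev2 y.f y.g (DcX d) * ev2 y.f y.g P) := rfl
  rw [e1, xD_re, neg_cast', qcX_ev, e_DcX]
  unfold vD
  ring

theorem eY_re (d : DC) (j : ℕ) (P : BP) : (eY d j P).re y = ev2 y.f y.g (qcY d j P) := by
  have e1 : (eY d j P).re y = (xD d).re y * ev2 y.f y.g (dY P) +
    ((Int.neg (Int.ofNat j) : ℤ) : ℝ) * (ev2 y.f y.g (DcY d) * ev2 y.f y.g P) := rfl
  rw [e1, xD_re, neg_cast', qcY_ev, e_DcY]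
  unfold vD
  ring

theorem v_nD (d : DC) {K k : ℕ} (t : AP × BP × BP) :
    CX.v y (hN d K k t) = ((vD y d ^ (K - k - 1) : ℝ) : ℂ) * CX.v y (nD d k t) := by
  have e1 : CX.v y (hN d K k t) =
    ⟨ev2 y.f y.g (mu2 (sb2 (qcX d k t.2.1) (qcY d k t.2.2)) (Dk d (K - k - 1))),
     ev2 y.f y.g (mu2 (ad2 (qcX d k t.2.2) (qcY d k t.2.1)) (Dk d (K - k - 1)))⟩ := rfl
  have e2 : CX.v y (nD d k t) =
    ⟨(eX d k t.2.1).re y + ((-1 : ℤ) : ℝ) * (eY d k t.2.2).re y,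
      (eX d k t.2.2).re y + (eY d k t.2.1).re y⟩ := rfl
  rw [e1, e2, ev2_mu, ev2_mu, Dk_v, e_sb, ev2_ad, eX_re, eX_re, eY_re, eY_re]
  apply Complex.ext
  · rw [re_ofReal_mul]; push_cast; ring
  · rw [im_ofReal_mul]; ring

theorem v_sumC {ι : Type} (f g : ι → CX) (c : ℂ) (L : List ι)
    (h : ∀ t ∈ L, CX.v y (f t) = c * CX.v y (g t)) :
    CX.v y (CX.sum f L) = c * CX.v y (CX.sum g L) := by
  rw [CX.v_sum, CX.v_sum, ← List.sum_map_mul_left]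
  congr 1
  exact List.map_congr_left h

theorem EG2_re (z0 z1 z2 : ℤ) (d : DC) {K : ℕ} {G : GrC} (hk : G.k + 1 ≤ K) :
    (EGc z0 z1 z2 d K G).re y = (EG2 z0 z1 z2 d K G).re y := by
  have e1 : (EGc z0 z1 z2 d K G).re y = (CX.v y (CX.mul (CX.pw cP G.j)
    (CX.add (CX.mI (CX.sc2 z1 z2 (CX.sum (fun t => CX.rm (apE (adC G.j t.1)) (hM d K G.k t)) G.l)))
      (CX.mul (CX.cj (CX.mul cP (cXt z0 z1 z2)))
        (CX.sum (fun t => CX.rm (Ex.sc 2 (apE t.1)) (hN d K G.k t)) G.l))))).re := rfl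
  have e2 : (EG2 z0 z1 z2 d K G).re y = (pD d (K - G.k - 1)).re y *
      (CX.v y (CX.mul (CX.pw cP G.j)
    (CX.add (CX.mI (CX.sc2 z1 z2 (CX.sum (fun t => CX.rm (apE (adC G.j t.1)) (mD d t)) G.l)))
      (CX.mul (CX.cj (CX.mul cP (cXt z0 z1 z2)))
        (CX.sum (fun t => CX.rm (Ex.sc 2 (apE t.1)) (nD d G.k t)) G.l))))).re := rfl
  have s1 := v_sumC y (fun t => CX.rm (apE (adC G.j t.1)) (hM d K G.k t))
    (fun t => CX.rm (apE (adC G.j t.1)) (mD d t)) ((vD y d ^ (K - G.k - 1) : ℝ) : ℂ) G.l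
    (fun t _ => by rw [CX.v_rm, CX.v_rm, v_mD y d hk]; ring)
  have s2 := v_sumC y (fun t => CX.rm (Ex.sc 2 (apE t.1)) (hN d K G.k t))
    (fun t => CX.rm (Ex.sc 2 (apE t.1)) (nD d G.k t)) ((vD y d ^ (K - G.k - 1) : ℝ) : ℂ) G.l
    (fun t _ => by rw [CX.v_rm, CX.v_rm, v_nD y d]; ring)
  rw [e1, e2, pD_re, ← re_ofReal_mul]
  congr 1
  rw [CX.v_mul, CX.v_mul, CX.v_add, CX.v_add, CX.v_mI, CX.v_mI, CX.v_sc2, CX.v_sc2, CX.v_mul,
    CX.v_mul, s1, s2]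
  ring

theorem sumX_mul {ι : Type} (f g : ι → Ex) (a b : Ex) (c : ℝ) (L : List ι)
    (h : ∀ t ∈ L, (f t).re y = c * (g t).re y) (ha : a.re y = c * b.re y) :
    (sumX f a L).re y = c * (sumX g b L).re y := by
  rw [sumX_re, sumX_re, ha, mul_add, ← List.sum_map_mul_left]
  congr 2
  exact List.map_congr_left h

theorem sumX_congr {ι : Type} (f g : ι → Ex) (a b : Ex) (L : List ι)
    (h : ∀ t ∈ L, (f t).re y = (g t).re y) (ha : a.re y = b.re y) :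
    (sumX f a L).re y = (sumX g b L).re y := by
  rw [sumX_re, sumX_re, ha]
  congr 2
  exact List.map_congr_left h

theorem target2_re {D : DatC} (w : D.Wf) (v : Vx) (s r0 r1 r2 : ℤ) (f : Fl) (L0 L1 : CL)
    (R : List Rm) :
    (D.target v s r0 r1 r2 f L0 L1 R).re y = (target2 D v s r0 r1 r2 f L0 L1 R).re y := by
  have h1 := sumX_mul y (EHm D.d D.K) hm2 (Ex.mul (Ex.pow xo D.h) (Ex.lit 0))
    (Ex.mul (Ex.pow xo D.h) (Ex.lit 0)) (vD y D.d ^ D.K) v.HM (fun t _ => hm2_re y D.d D.K t)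
    (by rw [lit0_re]; ring)
  have h2 := sumX_mul y (EMc v.td v.td v.tn D.d D.K D.h) (EM2 v.td v.td v.tn D.h)
    (sumX (EMc v.tn v.tn v.sn D.d D.K D.h) (D.eLin v) L1)
    (sumX (EM2 v.tn v.tn v.sn D.h) (eL2 D v) L1) (vD y D.d ^ D.K) L0
    (fun t _ => EM2_re y _ _ _ D.d D.K D.h t)
    (sumX_mul y _ _ _ _ _ L1 (fun t _ => EM2_re y _ _ _ D.d D.K D.h t) (eL2_re y D v))
  have h3 := sumX_congr y (EGc v.td v.td v.tn D.d D.K) (EG2 v.td v.td v.tn D.d D.K)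
    (sumX (EGc v.tn v.tn v.sn D.d D.K) (Ex.mul (Ex.pow xo D.h) (Ex.lit 0)) D.G1)
    (sumX (EG2 v.tn v.tn v.sn D.d D.K) (Ex.mul (Ex.pow xo D.h) (Ex.lit 0)) D.G1) D.G0
    (fun G hG => EG2_re y _ _ _ D.d (w.g0 G hG))
    (sumX_congr y _ _ _ _ D.G1 (fun G hG => EG2_re y _ _ _ D.d (w.g1 G hG)) rfl)
  have h4 := sumX_mul y (eRm D.d (D.K - D.kL)) eR2 (Ex.mul (Ex.pow xo (D.h - 2)) (Ex.lit 0))
    (Ex.mul (Ex.pow xo (D.h - 2)) (Ex.lit 0)) (vD y D.d ^ (D.K - D.kL)) R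
    (fun t _ => eR2_re y D.d _ t) (by rw [lit0_re]; ring)
  have e1 : (D.target v s r0 r1 r2 f L0 L1 R).re y =
      (Ex.sc (Int.mul (-2) (Int.mul v.td D.Mt)) (CX.nsq (cGv D.Fd s v.gm v.cR v.cI f))).re y *
        ((Ex.pow xo (D.h - 2)).re y * ev2 y.f y.g (Dk D.d D.K)) +
      (((Int.mul 2 v.td : ℤ) : ℝ) *
          (sumX (EHm D.d D.K) (Ex.mul (Ex.pow xo D.h) (Ex.lit 0)) v.HM).re y +
        (((2 : ℤ) : ℝ) * (sumX (EGc v.td v.td v.tn D.d D.K)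
          (sumX (EGc v.tn v.tn v.sn D.d D.K) (Ex.mul (Ex.pow xo D.h) (Ex.lit 0)) D.G1) D.G0).re y +
        (sumX (EMc v.td v.td v.tn D.d D.K D.h)
          (sumX (EMc v.tn v.tn v.sn D.d D.K D.h) (D.eLin v) L1) L0).re y)) +
      (eCn D.rd s r0 r1 r2).re y * (sumX (eRm D.d (D.K - D.kL))
        (Ex.mul (Ex.pow xo (D.h - 2)) (Ex.lit 0)) R).re y := rfl
  have e2 : (target2 D v s r0 r1 r2 f L0 L1 R).re y =
      ((pD D.d D.K).re y * (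
        (Ex.sc (Int.mul (-2) (Int.mul v.td D.Mt)) (CX.nsq (cGv D.Fd s v.gm v.cR v.cI f))).re y *
        (Ex.pow xo (D.h - 2)).re y +
        (((Int.mul 2 v.td : ℤ) : ℝ) *
          (sumX hm2 (Ex.mul (Ex.pow xo D.h) (Ex.lit 0)) v.HM).re y +
        (sumX (EM2 v.td v.td v.tn D.h)
          (sumX (EM2 v.tn v.tn v.sn D.h) (eL2 D v) L1) L0).re y)) +
      ((2 : ℤ) : ℝ) * (sumX (EG2 v.td v.td v.tn D.d D.K)
      (sumX (EG2 v.tn v.tn v.sn D.d D.K) (Ex.mul (Ex.pow xo D.h) (Ex.lit 0)) D.G1) D.G0).re y) +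
      (pD D.d (D.K - D.kL)).re y * ((eCn D.rd s r0 r1 r2).re y * (sumX eR2
      (Ex.mul (Ex.pow xo (D.h - 2)) (Ex.lit 0)) R).re y) := rfl
  rw [e1, e2, h1, h2, h3, h4, pD_re, pD_re, Dk_v]
  ring

theorem tIn2_re {D : DatC} (w : D.Wf) (v : Vx) : (D.tIn v).re y = (tIn2 D v).re y :=
  target2_re y w v _ _ _ _ _ _ _ _

theorem tOut2_re {D : DatC} (w : D.Wf) (v : Vx) : (D.tOut v).re y = (tOut2 D v).re y :=
  target2_re y w v _ _ _ _ _ _ _ _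

end

end Pool.Agent.Helper96.T2
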