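import Pool.Agent.Helper42.CKC.Dat

set_option autoImplicit false

/-!
A second expression of the target, with the products of polynomials left as products: it has the
same real values and is much cheaper to evaluate.
-/

namespace Pool.Agent.Helper96.T2

open Pool.Sos71 Pool.EK71 Pool.Agent.Helper52.EK Pool.Agent.Helper2.EK
open Pool.Agent.Helper69.EK3 (AP apE ader)
open Pool.Agent.Helper99.CKC Pool.Agent.Helper42.CKC
open Pool.Agent.Helper11.CKC (CL)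

/-- `D` -/
def xD (d : DC) : Ex := Ex.bp (DcL d)

/-- `D^n` -/
def pD (d : DC) (n : ℕ) : Ex := Ex.pow (xD d) n

/-- the harmonic term, without `D^K` -/
def hm2 (t : HmC) : Ex :=
  Ex.mul (apE (ader t.P)) (CX.mul (cZ t.cR t.cI) (CX.pw cx t.n)).r

/-- `(M₁ + i M₂) D` -/
def mD (d : DC) (t : AP × BP × BP) : CX := CX.rm (xD d) ⟨Ex.bp t.2.1, Ex.bp t.2.2⟩

/-- `D Pₓ - j P Dₓ` -/
def eX (d : DC) (j : ℕ) (P : BP) : Ex :=
  Ex.add (Ex.mul (xD d) (Ex.bp (dX P)))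
    (Ex.sc (Int.neg (Int.ofNat j)) (Ex.mul (Ex.bp (DcX d)) (Ex.bp P)))

/-- `D P_y - j P D_y` -/
def eY (d : DC) (j : ℕ) (P : BP) : Ex :=
  Ex.add (Ex.mul (xD d) (Ex.bp (dY P)))
    (Ex.sc (Int.neg (Int.ofNat j)) (Ex.mul (Ex.bp (DcY d)) (Ex.bp P)))

def nD (d : DC) (k : ℕ) (t : AP × BP × BP) : CX :=
  ⟨Ex.add (eX d k t.2.1) (Ex.sc (-1) (eY d k t.2.2)), Ex.add (eX d k t.2.2) (eY d k t.2.1)⟩

/-- a group, times `D^(k + 1)` -/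
def EG2 (z0 z1 z2 : ℤ) (d : DC) (K : ℕ) (G : GrC) : Ex :=
  Ex.mul (pD d (K - G.k - 1)) (CX.mul (CX.pw cP G.j)
    (CX.add (CX.mI (CX.sc2 z1 z2 (CX.sum (fun t => CX.rm (apE (adC G.j t.1)) (mD d t)) G.l)))
      (CX.mul (CX.cj (CX.mul cP (cXt z0 z1 z2)))
        (CX.sum (fun t => CX.rm (Ex.sc 2 (apE t.1)) (nD d G.k t)) G.l)))).r

/-- the mixed terms, without `D^K` -/
def EM2 (z0 z1 z2 : ℤ) (h : ℕ) (t : ℕ × ℕ × ℤ × ℤ) : Ex :=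
  Ex.mul (Ex.mul (Ex.pow (Ex.va 0) t.1)
    (CX.mul (CX.sc2 t.2.2.1 t.2.2.2 (cMw t.2.1))
      (CX.mul cx (CX.add (cZ (Int.mul 2 z0) 0) (CX.sc2 z1 z2 cx)))).r)
    (Ex.pow xo (h - 2))

/-- one multiplier of the relation, without `D^m` -/
def eR2 (t : Rm) : Ex :=
  Ex.mul (Ex.mul (Ex.pow (Ex.va 0) t.e) (Ex.mul (Ex.pow (Ex.va 3) t.a) (Ex.pow (Ex.va 4) t.b)))
    (Ex.mul (apE t.g) (Ex.bp t.P))

/-- `(lam (|x|² + x₁) - ka x₁)`, times `2 td` -/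
def eL2 (D : DatC) (v : Vx) : Ex :=
  Ex.mul (Ex.pow xo D.h) (Ex.bp [[0, 0, Int.mul (Int.mul 2 v.td) v.lam],
    [Int.mul (Int.mul 2 v.td) (Int.add v.lam (Int.neg v.ka))],
    [Int.mul (Int.mul 2 v.td) v.lam]])

/-- the part of the target without the relation -/
def main2 (D : DatC) (v : Vx) (s : ℤ) (f : Fl) (L0 L1 : CL) : Ex :=
  Ex.add (Ex.mul (pD D.d D.K) (Ex.add
      (Ex.mul (Ex.sc (Int.mul (-2) (Int.mul v.td D.Mt))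
        (CX.nsq (cGv D.Fd s v.gm v.cR v.cI f))) (Ex.pow xo (D.h - 2)))
      (Ex.add (Ex.sc (Int.mul 2 v.td) (sumX hm2 (Ex.mul (Ex.pow xo D.h) (Ex.lit 0)) v.HM))
        (sumX (EM2 v.td v.td v.tn D.h)
          (sumX (EM2 v.tn v.tn v.sn D.h) (eL2 D v) L1) L0))))
    (Ex.sc 2 (sumX (EG2 v.td v.td v.tn D.d D.K)
      (sumX (EG2 v.tn v.tn v.sn D.d D.K) (Ex.mul (Ex.pow xo D.h) (Ex.lit 0)) D.G1) D.G0))

/-- the target -/
def target2 (D : DatC) (v : Vx) (s r0 r1 r2 : ℤ) (f : Fl) (L0 L1 : CL) (R : List Rm) : Ex :=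
  Ex.add (main2 D v s f L0 L1)
    (Ex.mul (pD D.d (D.K - D.kL)) (Ex.mul (eCn D.rd s r0 r1 r2) (sumX eR2
      (Ex.mul (Ex.pow xo (D.h - 2)) (Ex.lit 0)) R)))

def tIn2 (D : DatC) (v : Vx) : Ex := target2 D v 1 D.p0 D.p1 D.p2 v.fi D.MI0 D.MI1 v.RI
def tOut2 (D : DatC) (v : Vx) : Ex := target2 D v (-1) D.q0 D.q1 D.q2 v.fo D.MO0 D.MO1 v.RO

end Pool.Agent.Helper96.T2
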