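import Pool.Agent.Helper96.T2.Val
import Pool.Agent.Helper42.CKC.Side
import Pool.Agent.Helper71.Sos.Fast2

set_option autoImplicit false

/-!
The sides, from certificates with the second expression of the target.
-/

namespace Pool.Agent.Helper96.T2

open Pool.Sos71
open Pool.Agent.Helper99.CKC Pool.Agent.Helper42.CKC

variable {D : DatC} {Ln Ld : ℤ} {v0 v1 v2 : Vx}

theorem SideP.congr {K : ℕ} {T0 T1 T2 T0' T1' T2' : Ex} (h : SideP K Ln Ld v0 v1 v2 T0 T1 T2)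
    (h0 : ∀ y : Pnt, T0'.re y = T0.re y) (h1 : ∀ y : Pnt, T1'.re y = T1.re y)
    (h2 : ∀ y : Pnt, T2'.re y = T2.re y) : SideP K Ln Ld v0 v1 v2 T0' T1' T2' := by
  obtain ⟨B, hB, Q1, Q2, H⟩ := h
  refine ⟨B, hB, Q1, Q2, fun y hy => ?_⟩
  rw [h0, h1, h2]
  exact H y hy

/-- **inner side** -/
theorem sideIn (w : D.wf = true) {K : ℕ}
    (h : SideP K Ln Ld v0 v1 v2 (tIn2 D v0) (tIn2 D v1) (tIn2 D v2)) :
    SideP K Ln Ld v0 v1 v2 (D.tIn v0) (D.tIn v1) (D.tIn v2) :=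
  SideP.congr h (fun y => tIn2_re y (DatC.wf_iff D w) v0) (fun y => tIn2_re y (DatC.wf_iff D w) v1)
    (fun y => tIn2_re y (DatC.wf_iff D w) v2)

/-- **outer side** -/
theorem sideOut (w : D.wf = true) {K : ℕ}
    (h : SideP K Ln Ld v0 v1 v2 (tOut2 D v0) (tOut2 D v1) (tOut2 D v2)) :
    SideP K Ln Ld v0 v1 v2 (D.tOut v0) (D.tOut v1) (D.tOut v2) :=
  SideP.congr h (fun y => tOut2_re y (DatC.wf_iff D w) v0)
    (fun y => tOut2_re y (DatC.wf_iff D w) v1) (fun y => tOut2_re y (DatC.wf_iff D w) v2)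

end Pool.Agent.Helper96.T2
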